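import Pool.Agent.helper90.FL.Spec

set_option autoImplicit false

namespace Pool.Agent.helper90.FL

open Finset Polynomial
open scoped Classical

theorem SCL_touch (h1 : CLS_stmt) (V E : Type) (s t : E → V) (D C : Finset E) (c' : E) (u : V)
    (hc' : c' ∈ C) (hD : ¬ Lp s t D c') (hu : s c' ∈ cls s t D u ∨ t c' ∈ cls s t D u) :
    c' ∈ cut s t C (cls s t D u) := by
  obtain ⟨-, -, C3, -, C5⟩ := h1 V E s t D
  unfold cut
  rw [Finset.mem_filter]
  refine ⟨hc', ?_⟩
  intro hiff
  have hs : s c' ∈ cls s t D u := by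
    rcases hu with h | h
    · exact h
    · exact hiff.2 h
  have ht : t c' ∈ cls s t D u := hiff.1 hs
  exact hD ((C5 c').1 ((C3 u _ hs).trans (C3 u _ ht).symm))

theorem SCL (h1 : CLS_stmt) (h2 : DBL_stmt) (h3 : BDR_stmt) (h4 : SCA_stmt) (h5 : SCB_stmt)
    (h6 : SCG_stmt) : SCL_stmt := by
  intro V E _ s t o w ho hbd A B hA hlp hcut
  obtain ⟨j, C, e, hCA, hCir, heC, hoe, hoc, hInd⟩ :=
    h4 V E s t o ho A B hA (fun S hS => (hcut S hS).1)
  have heY : e ∉ A.filter fun a => o a < j := by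
    intro h
    have := (Finset.mem_filter.1 h).2
    omega
  have hCY : C.erase e ⊆ A.filter fun a => o a < j := by
    intro c hc
    rw [Finset.mem_erase] at hc
    exact Finset.mem_filter.2 ⟨hCA hc.2, hoc c hc.2 hc.1⟩
  have hY : ∀ a ∈ A, o a < j → a ∈ A.filter fun a => o a < j :=
    fun a ha h => Finset.mem_filter.2 ⟨ha, h⟩
  generalize (A.filter fun a => o a < j) = Y at *
  have hC2 : 2 ≤ C.card := by
    by_contra hlt
    have hc1 : C.card ≤ 1 := by omega
    have hCe : C.erase e = ∅ := by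
      rw [Finset.eq_empty_iff_forall_notMem]
      intro c hc
      rw [Finset.mem_erase] at hc
      exact hc.1 (Finset.card_le_one.1 hc1 c hc.2 e heC)
    have h7 := hCir.2.1 e heC
    rw [hCe, Finset.union_empty] at h7
    exact hlp e (hCA heC) h7
  obtain ⟨hD1, hD2, hD3⟩ := h5 V E s t B C Y e hCir heC hC2 heY hCY hInd
  have hBD : B ⊆ B ∪ (Y \ C) := Finset.subset_union_left
  have hYD : ∀ a ∈ Y, a ∉ C → a ∈ B ∪ (Y \ C) := fun a ha haC =>
    Finset.mem_union_right _ (Finset.mem_sdiff.2 ⟨ha, haC⟩)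
  generalize B ∪ (Y \ C) = D at *
  obtain ⟨C1, C2, C3, -, -⟩ := h1 V E s t D
  have key : ∀ u : V, (∃ c' ∈ C, s c' ∈ cls s t D u ∨ t c' ∈ cls s t D u) →
      (∀ v ∈ cls s t D u, v ∉ bd s t o j) → 3 ≤ (cut s t C (cls s t D u)).card := by
    rintro u ⟨c', hc', hu⟩ hno
    have hA1 := SCL_touch h1 V E s t D C c' u hc' (hD1 c' hc') hu
    have hB1 : ∃ c ∈ C, c ≠ e ∧ (s c ∈ cls s t D u ∨ t c ∈ cls s t D u) := by
      by_contra hnone
      have hce : c' = e := by
        by_contra hne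
        exact hnone ⟨c', hc', hne, hu⟩
      have hcl : Cl s t (D ∪ C.erase e) (cls s t D u) := by
        intro d hd
        rcases Finset.mem_union.1 hd with hd | hd
        · exact C2 u d hd
        · rw [Finset.mem_erase] at hd
          constructor
          · intro h
            exact absurd ⟨d, hd.2, hd.1, Or.inl h⟩ hnone
          · intro h
            exact absurd ⟨d, hd.2, hd.1, Or.inr h⟩ hnone
      have h7 := hD2 e heC _ hcl
      rw [hce] at hA1
      exact (Finset.mem_filter.1 hA1).2 h7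
    obtain ⟨c, hcC, hce, hcu⟩ := hB1
    have hcutAC := h3 V E s t o j A C D u c hCA (by
      intro a ha hoa
      by_cases haC : a ∈ C
      · exact Or.inl haC
      · exact Or.inr (hYD a (hY a ha hoa) haC)) (hoc c hcC hce) hcu hno
    have hclB : Cl s t B (cls s t D u) := fun d hd => C2 u d (hBD hd)
    have h8 := hcut _ hclB
    rw [hcutAC] at h8
    have h9 := Finset.card_pos.2 ⟨c', hA1⟩
    omega
  have h7 := h2 V E s t D C e {T | T ∈ tc s t D C ∧ (T ∩ bd s t o j).Nonempty} heC hC2 hD1 hD2 hD3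
    (fun T hT => hT.1) (by
      intro T hT hT'
      have hno : ∀ v ∈ T, v ∉ bd s t o j := by
        intro v hv hvb
        exact hT' ⟨hT, v, hv, hvb⟩
      obtain ⟨c', hc', hT1⟩ := hT
      rcases hT1 with rfl | rfl
      · exact key (s c') ⟨c', hc', Or.inl (C1 _)⟩ hno
      · exact key (t c') ⟨c', hc', Or.inr (C1 _)⟩ hno)
  have h8 := h6 V E s t D C (bd s t o j)
  exact ⟨C, hCA, hCir, h7.trans (h8.trans (hbd j))⟩

end Pool.Agent.helper90.FL
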